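import Pool.Agent.helper66.WD.Spec

set_option autoImplicit false

/-! # WD (MP_dc9173_lc), row LNA -/

universe u

namespace Pool.Agent.WD

open MvPolynomial Pool.Agent.helper92.VC

theorem LNA (hFRP : FRP_stmt.{u}) (hSHP : SHP_stmt.{u}) (hHOP : HOP_stmt.{u}) (hMNP : MNP_stmt.{u})
    (hLIN : LIN_stmt.{u}) : LNA_stmt.{u} := by
  intro n K _ w D τ A α hA
  have h1 := hFRP n K w τ A hA
  have h2 := hSHP n K w (List.ofFn τ) {A} α h1
  have h3 := hHOP n K w D (List.ofFn τ) _ h2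
  refine hMNP n K _ _ (List.ofFn τ) _ _ le_rfl ?_ h3
  rintro q ⟨j, hj, hq⟩
  exact ⟨shift α A, ⟨A, rfl, rfl⟩, j, hj, by rw [hq, hLIN]⟩

end Pool.Agent.WD
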