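import Pool.Agent.helper66.WD.Spec

set_option autoImplicit false

/-! # WD (MP_dc9173_lc), row MNP -/

universe u

namespace Pool.Agent.WD

open MvPolynomial Pool.Agent.helper92.VC

theorem MNP_dim {n : ℕ} {K : Type*} [Field K] {w w' : ℕ} {S S' : Set (MvPolynomial (Fin n) K)}
    (hw : w ≤ w') (hS : S' ⊆ S) (h : DimP w S) : DimP w' S' := by
  obtain ⟨g, hg⟩ := h
  refine ⟨fun i => if h : (i : ℕ) < w then g ⟨i, h⟩ else 0, hS.trans (hg.trans ?_)⟩
  refine SetLike.coe_subset_coe.2 (Submodule.span_mono ?_)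
  rintro _ ⟨i, rfl⟩
  refine ⟨Fin.castLE hw i, ?_⟩
  have hi : ((Fin.castLE hw i : Fin w') : ℕ) < w := i.2
  show (if h : ((Fin.castLE hw i : Fin w') : ℕ) < w then g ⟨_, h⟩ else 0) = g i
  rw [dif_pos hi]
  rfl

theorem MNP_RP {n : ℕ} {K : Type*} [Field K] {w w' : ℕ} (hw : w ≤ w') (l : List (Fin n)) :
    ∀ S S' : Set (MvPolynomial (Fin n) K), S' ⊆ S → RP w l S → RP w' l S' := by
  induction l with
  | nil => exact fun S S' hS h => MNP_dim hw hS h
  | cons x s ih =>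
    intro S S' hS h
    refine ⟨MNP_dim hw hS h.1, ih _ _ ?_ h.2⟩
    rintro q ⟨p, hp, j, hq⟩
    exact ⟨p, hS hp, j, hq⟩

theorem MNP : MNP_stmt.{u} := fun _ _ _ _ _ l S S' hw hS h => MNP_RP hw l S S' hS h

end Pool.Agent.WD
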