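import Pool.Agent.helper66.WD.Spec
import Pool.Agent.helper68.WD.MNP

set_option autoImplicit false

/-! # WD (MP_dc9173_lc), row SPP -/

universe u

namespace Pool.Agent.WD

open MvPolynomial Pool.Agent.helper92.VC

/-- `cf x j` as a linear map -/
noncomputable def SPP_lin {n : ℕ} {K : Type*} [Field K] (x : Fin n) (j : ℕ) :
    MvPolynomial (Fin n) K →ₗ[K] MvPolynomial (Fin n) K where
  toFun := cf x j
  map_add' p q := by
    unfold cf
    rw [map_add, Polynomial.coeff_add]
  map_smul' a p := by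
    unfold cf
    rw [map_smul, Polynomial.coeff_smul]
    rfl

theorem SPP_dim {n : ℕ} {K : Type*} [Field K] {w : ℕ} {S : Set (MvPolynomial (Fin n) K)}
    (h : DimP w S) : DimP w (Submodule.span K S : Set (MvPolynomial (Fin n) K)) := by
  obtain ⟨g, hg⟩ := h
  exact ⟨g, SetLike.coe_subset_coe.2 (Submodule.span_le.2 hg)⟩

theorem SPP_RP {n : ℕ} {K : Type*} [Field K] {w : ℕ} (l : List (Fin n)) :
    ∀ S : Set (MvPolynomial (Fin n) K), RP w l S →
      RP w l (Submodule.span K S : Set (MvPolynomial (Fin n) K)) := by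
  induction l with
  | nil => exact fun S h => SPP_dim h
  | cons x s ih =>
    intro S h
    refine ⟨SPP_dim h.1, MNP_RP le_rfl s _ _ ?_ (ih _ h.2)⟩
    rintro q ⟨p, hp, j, hq⟩
    have h1 : SPP_lin x j p ∈ (Submodule.span K S).map (SPP_lin x j) :=
      Submodule.mem_map_of_mem hp
    rw [Submodule.map_span] at h1
    have h2 : q = SPP_lin x j p := hq
    rw [h2]
    refine Submodule.span_mono ?_ h1
    rintro _ ⟨p', hp', rfl⟩
    exact ⟨p', hp', j, rfl⟩

theorem SPP : SPP_stmt.{u} := fun _ _ _ _ l S h => SPP_RP l S h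

end Pool.Agent.WD
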