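import Pool.Agent.helper66.WD.Spec
import Pool.Agent.helper68.WD.MNP

set_option autoImplicit false

/-! # WD (MP_dc9173_lc), row UNP -/

universe u

namespace Pool.Agent.WD

open MvPolynomial Pool.Agent.helper92.VC

theorem UNP_dim {n : ℕ} {K : Type*} [Field K] {w m : ℕ} {S : Fin m → Set (MvPolynomial (Fin n) K)}
    (h : ∀ i, DimP w (S i)) : DimP (m * w) (⋃ i, S i) := by
  choose g hg using h
  refine ⟨fun t => g (finProdFinEquiv.symm t).1 (finProdFinEquiv.symm t).2, ?_⟩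
  intro p hp
  obtain ⟨i, hi⟩ := Set.mem_iUnion.1 hp
  refine Submodule.span_mono ?_ (hg i hi)
  rintro _ ⟨j, rfl⟩
  refine ⟨finProdFinEquiv (i, j), ?_⟩
  show g (finProdFinEquiv.symm (finProdFinEquiv (i, j))).1
    (finProdFinEquiv.symm (finProdFinEquiv (i, j))).2 = g i j
  rw [Equiv.symm_apply_apply]

theorem UNP_RP {n : ℕ} {K : Type*} [Field K] {w m : ℕ} (l : List (Fin n)) :
    ∀ S : Fin m → Set (MvPolynomial (Fin n) K), (∀ i, RP w l (S i)) → RP (m * w) l (⋃ i, S i) := by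
  induction l with
  | nil => exact fun S h => UNP_dim h
  | cons x s ih =>
    intro S h
    refine ⟨UNP_dim fun i => (h i).1, MNP_RP le_rfl s _ _ ?_ (ih _ fun i => (h i).2)⟩
    rintro q ⟨p, hp, j, hq⟩
    obtain ⟨i, hi⟩ := Set.mem_iUnion.1 hp
    exact Set.mem_iUnion.2 ⟨i, p, hi, j, hq⟩

theorem UNP : UNP_stmt.{u} := fun _ _ _ _ _ l S h => UNP_RP l S h

end Pool.Agent.WD
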