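import Pool.Agent.helper66.WD.Spec

set_option autoImplicit false

/-! # WD (MP_dc9173_lc), row SHP -/

universe u

namespace Pool.Agent.WD

open MvPolynomial Pool.Agent.helper92.VC

theorem SHP_phi {n : ℕ} {K : Type*} [Field K] (x : Fin n) (α : Fin n → K)
    (p : MvPolynomial (Fin n) K) :
    phi x (shift α p) = ((phi x p).map (shift α : MvPolynomial (Fin n) K →+* _)).comp
      (Polynomial.X + Polynomial.C (C (α x))) := by
  induction p using MvPolynomial.induction_on with
  | C a =>
    have e1 : shift α (C a : MvPolynomial (Fin n) K) = C a := by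
      unfold shift
      rw [aeval_C]
      rfl
    have e2 : phi x (C a : MvPolynomial (Fin n) K) = Polynomial.C (C a) := by
      unfold phi
      rw [aeval_C]
      rfl
    rw [e1, e2, Polynomial.map_C, Polynomial.C_comp]
    congr 1
    exact e1.symm
  | add p q hp hq => rw [map_add, map_add, map_add, Polynomial.map_add, Polynomial.add_comp, hp, hq]
  | mul_X p y hp =>
    rw [map_mul, map_mul, map_mul, Polynomial.map_mul, Polynomial.mul_comp, hp]
    congr 1
    have e1 : shift α (X y : MvPolynomial (Fin n) K) = X y + C (α y) := by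
      unfold shift
      rw [aeval_X]
    have e2 : phi x (C (α y) : MvPolynomial (Fin n) K) = Polynomial.C (C (α y)) := by
      unfold phi
      rw [aeval_C]
      rfl
    have e3 : phi x (X y : MvPolynomial (Fin n) K) =
        if y = x then Polynomial.X else Polynomial.C (X y) := by
      unfold phi
      rw [aeval_X]
    rw [e1, map_add, e2, e3]
    by_cases h : y = x
    · rw [if_pos h, Polynomial.map_X, Polynomial.X_comp, h]
    · rw [if_neg h, Polynomial.map_C, Polynomial.C_comp, ← Polynomial.C_add]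
      congr 1
      exact e1.symm

theorem SHP_cf {n : ℕ} {K : Type*} [Field K] (x : Fin n) (α : Fin n → K)
    (p : MvPolynomial (Fin n) K) (j : ℕ) (U : Submodule K (MvPolynomial (Fin n) K))
    (hU : ∀ a, shift α (cf x a p) ∈ U) : cf x j (shift α p) ∈ U := by
  unfold cf
  rw [SHP_phi, Polynomial.comp_eq_sum_left, Polynomial.sum_def, Polynomial.finsetSum_coeff]
  refine Submodule.sum_mem _ fun a _ => ?_
  rw [Polynomial.coeff_C_mul, Polynomial.coeff_X_add_C_pow, Polynomial.coeff_map]
  have h1 := hU a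
  unfold cf at h1
  have e1 : (shift α : MvPolynomial (Fin n) K →+* _) ((phi x p).coeff a) *
      ((C (α x) : MvPolynomial (Fin n) K) ^ (a - j) * ((a.choose j : ℕ) : MvPolynomial (Fin n) K)) =
      (α x ^ (a - j) * ((a.choose j : ℕ) : K)) • shift α ((phi x p).coeff a) := by
    rw [MvPolynomial.smul_eq_C_mul, C_mul, C_pow, map_natCast, mul_comm]
    rfl
  rw [e1]
  exact U.smul_mem _ h1

theorem SHP_dim {n : ℕ} {K : Type*} [Field K] {w : ℕ} {S : Set (MvPolynomial (Fin n) K)}
    (α : Fin n → K) (h : DimP w S) : DimP w (shift α '' S) := by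
  obtain ⟨g, hg⟩ := h
  refine ⟨fun i => shift α (g i), ?_⟩
  rintro _ ⟨p, hp, rfl⟩
  have h1 : (shift α).toLinearMap p ∈ (Submodule.span K (Set.range g)).map (shift α).toLinearMap :=
    Submodule.mem_map_of_mem (hg hp)
  rw [Submodule.map_span] at h1
  refine Submodule.span_mono ?_ h1
  rintro _ ⟨_, ⟨i, rfl⟩, rfl⟩
  exact ⟨i, rfl⟩

theorem SHP (hMNP : MNP_stmt.{u}) (hSPP : SPP_stmt.{u}) : SHP_stmt.{u} := by
  intro n K _ w l
  induction l with
  | nil => exact fun S α h => SHP_dim α h
  | cons x s ih =>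
    intro S α h
    refine ⟨SHP_dim α h.1, ?_⟩
    have h1 := hSPP n K w s _ (ih _ α h.2)
    refine hMNP n K w w s _ _ le_rfl ?_ h1
    rintro q ⟨_, ⟨p, hp, rfl⟩, j, hq⟩
    rw [hq]
    refine SHP_cf x α p j _ fun a => Submodule.subset_span ?_
    exact ⟨cf x a p, ⟨p, hp, a, rfl⟩, rfl⟩

end Pool.Agent.WD
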